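import Mathlib
import Pool.Agent.Lib.MP_ecc084_pr.Defs
import Pool.Agent.Lib.MP_ecc084_pr.BK.E

/-!
A counterexample to pointwise entropic repulsion (E) at the centre of the ball, on `ℤ`.

The spectral measure has an absolutely continuous part, a discrete part and no singular continuous
part, and (S) holds with `α = 0`.  At the centre `x = 0` the difference between the normalised
conditional mean and the equilibrium potential is unbounded as `T → ∞`.
-/

open MeasureTheory ProbabilityTheory Filter Topology Metric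
open scoped InnerProductSpace
open Pool.Agent.Lib.MP_ecc084_pr

namespace Pool.Agent.Results.MP_ecc084_pr.Bulk

theorem result :
    ∃ (Ω : Type) (_ : MeasurableSpace Ω) (P : Measure Ω) (f : (Fin 1 → ℤ) → Ω → ℝ)
      (μ μac μd : Measure (EuclideanSpace ℝ (Fin 1))) (α : ℝ),
      -- a centred non-degenerate Gaussian field on the lattice
      IsProbabilityMeasure P ∧ (∀ x, Measurable (f x)) ∧ IsGaussianProcess f P ∧
      (∀ x, ∫ ω, f x ω ∂P = 0) ∧
      (∀ (I : Finset (Fin 1 → ℤ)) (c : (Fin 1 → ℤ) → ℝ), (∃ x ∈ I, c x ≠ 0) →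
        0 < variance (fun ω => ∑ x ∈ I, c x * f x ω) P) ∧
      -- stationary, with spectral measure μ
      IsFiniteMeasure μ ∧ μ.map (fun l => -l) = μ ∧ μ {l | ∃ i, Real.pi < |l i|} = 0 ∧
      (∀ x y, ((∫ ω, f x ω * f y ω ∂P : ℝ) : ℂ) = fourierOf μ (fun _ => 1) (x - y)) ∧
      -- (S)
      (0 ≤ α ∧ α < 1 ∧ (∀ δ : ℝ, 0 < δ → 0 < μ.real (closedBall 0 δ)) ∧
        Tendsto (fun δ : ℝ => Real.log (μ.real (closedBall 0 δ)) / Real.log δ) (𝓝[>] 0) (𝓝 α)) ∧
      -- (N): an absolutely continuous part, a discrete part, nothing else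
      (μ = μac + μd ∧ μac ≠ 0 ∧ μac.AbsolutelyContinuous volume ∧
        ∃ S : Set (EuclideanSpace ℝ (Fin 1)), S.Countable ∧ μd Sᶜ = 0) ∧
      -- the conditioning and the equilibrium potentials make sense
      (∀ T : ℝ, P {ω | ∀ y ∈ latBall 1 T, 0 ≤ f y ω} ≠ 0) ∧
      (∀ T : ℝ, ∃ h, IsEqPot μ (latBall 1 T) h) ∧
      ∀ h : ℝ → (Fin 1 → ℤ) → ℝ, (∀ T, IsEqPot μ (latBall 1 T) (h T)) →
        -- the difference at the centre is unbounded
        (∀ C : ℝ, ∃ᶠ T : ℝ in atTop,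
          C ≤ |(√(2 * μac.real Set.univ * (1 - α) * Real.log T))⁻¹ *
              (∫ ω, f 0 ω ∂(cond P {ω | ∀ y ∈ latBall 1 T, 0 ≤ f y ω})) - h T 0|) ∧
        -- (E) fails
        ¬ Tendsto (fun T : ℝ => ⨆ x : latBall 1 T,
            |(√(2 * μac.real Set.univ * (1 - α) * Real.log T))⁻¹ *
              (∫ ω, f x ω ∂(cond P {ω | ∀ y ∈ latBall 1 T, 0 ≤ f y ω})) - h T x|)
          atTop (𝓝 0) := by
  choose f hm hG h0 hcov hpos using fun σ : ℕ → Bool => exists_gaussian (chi (BK.sy (BK.nu σ)))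
  have hK : ∀ σ x y, ∫ ω, f σ x ω * f σ y ω ∂iidNormal = Kc (BK.sy (BK.nu σ)) (x - y) := by
    intro σ x y
    rw [hcov, real_inner_chi_chi _ (BK.sy_symm _)]
  have hzero : ∀ T : ℝ, 0 ≤ T → (0 : Fin 1 → ℤ) ∈ latBall 1 T := fun T hT =>
    BK.mem_latBall_one.2 (by simpa using hT)
  obtain ⟨σ, hσ⟩ := BK.exists_bad (fun σ k =>
    |(√(2 * (BK.sy (BK.nuA σ)).real Set.univ * Real.log (BK.nn k)))⁻¹ *
      (∫ ω, f σ 0 ω ∂(cond iidNormal {ω | ∀ y ∈ latBall 1 (BK.nn k), 0 ≤ f σ y ω})) - BK.AA k| <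
      2 * 2 ^ k) (by
    intro σ τ k hlt h1 h2 g1 g2
    rw [BK.cond_mean_eq (hm σ) (hm τ) (hG σ) (hG τ) (h0 σ) (h0 τ) (BK.finite_latBall_one _)
      (fun x hx y hy => ?_) (hzero _ (Nat.cast_nonneg _))] at g1
    · rw [BK.sy_univ] at g1 g2
      refine BK.ratio_contra k ?_ ?_ ?_ g2 g1
      · linarith [BK.mass_mem τ]
      · linarith [BK.mass_mem τ]
      · linarith [BK.mass_gap hlt h1 h2]
    · rw [hK, hK, BK.Kc_sy, BK.Kc_sy, BK.cos_nu_eq hlt]
      have a1 : |x 0| ≤ BK.nn k := by exact_mod_cast BK.mem_latBall_one.1 hx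
      have a2 : |y 0| ≤ BK.nn k := by exact_mod_cast BK.mem_latBall_one.1 hy
      have a3 := abs_sub (x 0) (y 0)
      rw [Pi.sub_apply]
      push_cast
      linarith)
  have hL2 : ∀ y, MemLp (f σ y) 2 iidNormal := fun y => ((hG σ).hasGaussianLaw_eval y).memLp_two
  refine ⟨ℕ → ℝ, inferInstance, iidNormal, f σ, BK.sy (BK.nu σ), BK.sy (BK.nuA σ),
    BK.sy (BK.nuD σ), 0, inferInstance, hm σ, hG σ, h0 σ, ?_, inferInstance, BK.sy_symm _,
    BK.sy_supp (BK.nu_supp σ), ?_, ⟨le_rfl, one_pos, BK.ball_pos σ, BK.cond_S σ⟩,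
    ⟨BK.sy_add _ _, ?_, BK.sy_ac (BK.nuA_ac σ), ?_⟩, ?_, ?_, ?_⟩
  · intro I c hc
    have hmeas : AEMeasurable (fun ω => ∑ x ∈ I, c x * f σ x ω) iidNormal :=
      (Finset.measurable_fun_sum I (fun x _ => (hm σ x).const_mul _)).aemeasurable
    rw [← covariance_self hmeas, covariance_fun_sum_fun_sum' (fun x _ => (hL2 x).const_mul _)
      (fun x _ => (hL2 x).const_mul _)]
    refine lt_of_lt_of_eq (BK.nondeg_sy _ (BK.wh_le_nu σ) I c hc) ?_
    refine Finset.sum_congr rfl (fun x _ => Finset.sum_congr rfl (fun y _ => ?_))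
    rw [covariance_const_mul_left, covariance_const_mul_right, covariance_eq_sub (hL2 x) (hL2 y),
      ← hK]
    simp [h0, mul_assoc]
  · intro x y
    rw [hK, fourierOf_one_eq _ (BK.sy_symm _)]
  · intro h
    have h1 := BK.sy_univ (BK.nuA σ)
    rw [h] at h1
    simp only [measureReal_zero, Pi.zero_apply] at h1
    linarith [BK.mass_mem σ]
  · obtain ⟨S, hS, hS0⟩ := BK.nuD_countable σ
    exact BK.sy_countable hS hS0
  · intro T
    obtain ⟨g, hg⟩ := exists_feasible _ (BK.ball_pos σ) (BK.finite_latBall_one T).toFinset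
    exact hpos σ _ (BK.finite_latBall_one T) g
      (fun x hx => lt_of_lt_of_le one_pos (hg x ((BK.finite_latBall_one T).mem_toFinset.2 hx)))
  · intro T
    obtain ⟨c, -, -, -, h4⟩ := cap_spec _ (BK.sy_symm _) (BK.ball_pos σ)
      (BK.finite_latBall_one T).toFinset
    rwa [Set.Finite.coe_toFinset] at h4
  · intro h hh
    have hfr : ∀ C : ℝ, ∃ᶠ T : ℝ in atTop,
        C ≤ |(√(2 * (BK.sy (BK.nuA σ)).real Set.univ * (1 - 0) * Real.log T))⁻¹ *
          (∫ ω, f σ 0 ω ∂(cond iidNormal {ω | ∀ y ∈ latBall 1 T, 0 ≤ f σ y ω})) - h T 0| := by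
      intro C
      have hn : Tendsto (fun k => (BK.nn k : ℝ)) atTop atTop :=
        tendsto_natCast_atTop_atTop.comp BK.nn_mono.tendsto_atTop
      refine hn.frequently (frequently_atTop.2 fun k₀ => ?_)
      obtain ⟨k₁, hk₁⟩ := pow_unbounded_of_one_lt C (one_lt_two (α := ℝ))
      obtain ⟨k, hk, hbad⟩ := hσ (max k₀ k₁)
      refine ⟨k, le_of_max_le_left hk, ?_⟩
      have a1 : (2 : ℝ) ^ k₁ ≤ 2 ^ k := pow_le_pow_right₀ one_le_two (le_of_max_le_right hk)
      have a2 : (1 : ℝ) ≤ 2 ^ k := one_le_pow₀ one_le_two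
      have a3 := BK.eqPot_centre σ k (hh _)
      have a4 := abs_sub_le ((√(2 * (BK.sy (BK.nuA σ)).real Set.univ * Real.log (BK.nn k)))⁻¹ *
        (∫ ω, f σ 0 ω ∂(cond iidNormal {ω | ∀ y ∈ latBall 1 (BK.nn k), 0 ≤ f σ y ω})))
        (h (BK.nn k) 0) (BK.AA k)
      rw [sub_zero, mul_one]
      linarith [not_lt.1 hbad]
    refine ⟨hfr, fun hlim => ?_⟩
    obtain ⟨T, h1, h2, h3⟩ := ((hfr 1).and_eventually
      ((hlim.eventually (gt_mem_nhds (zero_lt_one' ℝ))).and (eventually_ge_atTop 0))).exists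
    have hfin : Finite (latBall 1 T) := (BK.finite_latBall_one _).to_subtype
    exact absurd (h1.trans (le_ciSup (f := fun x : latBall 1 T =>
      |(√(2 * (BK.sy (BK.nuA σ)).real Set.univ * (1 - 0) * Real.log T))⁻¹ *
        (∫ ω, f σ x ω ∂(cond iidNormal {ω | ∀ y ∈ latBall 1 T, 0 ≤ f σ y ω})) - h T x|)
      (Set.finite_range _).bddAbove ⟨0, hzero T h3⟩)) (not_le.2 h2)

end Pool.Agent.Results.MP_ecc084_pr.Bulk
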